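import Pool.Agent.Results.MP_b15c9e_ag.SymmetricPowers
import Pool.Agent.X123.ML.Prop

/-!
# Dynamical Mordell-Lang for the symmetric powers of ALL good rational approximations to almost every quadratic rational function

By Dirichlet's theorem every quadratic rational function with real coefficients `z` (normalised such that one coefficient is `1`) has
infinitely many rational approximations `v` with `|z_q - v_q / v_{q₀}| ≤ c |v| ^ (-6/5)`. For almost all `z`, for ALL but finitely many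
of these approximations `v` all the symmetric powers of `f_v` have the full Dynamical Mordell-Lang property. More generally this is
true for the `v` near the points of any metric space outside a set of small dimension.
-/

set_option autoImplicit false

open scoped ENNReal

namespace Pool.Agent.Results.MP_b15c9e_ag.MapsNearTargets

open MeasureTheory Pool.Agent.X123.ML
open Pool.Agent.Results.MP_b15c9e_ag.SymmetricPowers

/-- all the symmetric powers of the quadratic rational function `f_v` are endomorphisms with the Dynamical Mordell-Lang property -/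
def AllPowersDML (v : Fin 2 × Fin 3 → ℤ) : Prop :=
  ∀ N : ℕ, 1 ≤ N → ∃ F : Fin (N + 1) → MvPolynomial (Fin (N + 1)) ℂ,
    IsEndo 2 F ∧ IsSymPower v F ∧ DML F

/-- **Theorem.** (1) There is `δ > 0` such that for every map `s` from the integral vectors `v ∈ ℤ^6` to a metric space and every
`τ > 0` there is a set `E` of Hausdorff dimension at most `(6 - δ) / τ` such that for each `z` outside `E`, for ALL but finitely many
`v` with `dist(z, s(v)) ≤ |v| ^ (-τ)`, `|v| = max |v_q|`, all the symmetric powers `Sym^N f_v` on `ℙ^N`, `N ≥ 1`, of the quadratic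
rational function `f_v` with coefficients `v` are endomorphisms with the Dynamical Mordell-Lang property. (2) For every index `q₀`,
almost all real `z = (z_q)_{q ≠ q₀}` and all `c`, the same is true for ALL but finitely many `v` with
`|z_q - v_q / v_{q₀}| ≤ c |v| ^ (-6/5)` for all `q ≠ q₀`. -/
theorem result :
    (∃ δ : ℝ, 0 < δ ∧ ∀ (M : Type) [MetricSpace M] (s : (Fin 2 × Fin 3 → ℤ) → M) (τ : ℝ), 0 < τ →
      ∃ E : Set M, dimH E ≤ ENNReal.ofReal ((6 - δ) / τ) ∧ ∀ z : M, z ∉ E →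
        {v : Fin 2 × Fin 3 → ℤ | dist z (s v) ≤ ‖v‖ ^ (-τ) ∧ ¬ AllPowersDML v}.Finite) ∧
    ∀ q₀ : Fin 2 × Fin 3, ∀ᵐ z : {q : Fin 2 × Fin 3 // q ≠ q₀} → ℝ, ∀ c : ℝ,
      {v : Fin 2 × Fin 3 → ℤ | (∀ q : {q : Fin 2 × Fin 3 // q ≠ q₀},
        |z q - (v q : ℝ) / (v q₀ : ℝ)| ≤ c * ‖v‖ ^ (-(6 / 5) : ℝ)) ∧ ¬ AllPowersDML v}.Finite := by
  obtain ⟨δ, hδ, H₀, hH⟩ := SymmetricPowers.result
  obtain ⟨d, hd⟩ : ∃ d : ℝ, d = min δ 1 := ⟨_, rfl⟩
  have hd0 : 0 < d := by rw [hd]; exact lt_min hδ one_pos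
  have hd1 : d ≤ 1 := by rw [hd]; exact min_le_right _ _
  have hdδ : d ≤ δ := by rw [hd]; exact min_le_left _ _
  have hcard : (Fintype.card (Fin 2 × Fin 3) : ℝ) = 6 := by
    rw [Fintype.card_prod, Fintype.card_fin, Fintype.card_fin]; norm_num
  have hb : ∀ R : ℕ, H₀ ≤ R → 1 ≤ R →
      (Nat.card {v : Fin 2 × Fin 3 → ℤ // (∀ i, |v i| ≤ (R : ℤ)) ∧
        v ∈ {v : Fin 2 × Fin 3 → ℤ | ¬ AllPowersDML v}} : ℝ) ≤
        3 ^ d * (2 * R + 1 : ℝ) ^ ((6 : ℝ) - d) := by
    intro R hR hR1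
    have h1 := hH R hR 0
    simp only [Pi.zero_apply, sub_zero] at h1
    have h2 := prop_bound hR1 (m := 6) hd0.le hdδ
    refine (h1.trans h2).trans (le_of_eq ?_)
    norm_num
  refine ⟨⟨d, hd0, fun M _ s τ hτ => ?_⟩, fun q₀ => ?_⟩
  · obtain ⟨E, hE, hE2⟩ := near (I := Unit) (fun _ => {v : Fin 2 × Fin 3 → ℤ | ¬ AllPowersDML v})
      (fun v => ‖v‖) (by linarith : (0 : ℝ) ≤ 6 - d) hτ
      (fun _ => vec_count _ (by linarith : (0 : ℝ) ≤ 6 - d) hb) s
    exact ⟨E, hE, fun z hz => (hE2 z hz ()).subset fun v hv => ⟨hv.2, hv.1⟩⟩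
  · have h3 := ratios_ae q₀ (by rw [Fintype.card_prod, Fintype.card_fin, Fintype.card_fin]; norm_num)
      {v : Fin 2 × Fin 3 → ℤ | ¬ AllPowersDML v} hd0 hd1 (R₀ := H₀) (C := 3 ^ d)
      (by rw [hcard]; exact hb)
    rw [hcard] at h3
    filter_upwards [h3] with z hz c
    refine (hz c).subset fun v hv => ⟨hv.2, fun q => ?_⟩
    have h4 := hv.1 q
    have h5 : (-(6 / 5) : ℝ) = -((6 : ℝ) / (6 - 1)) := by norm_num
    rwa [h5] at h4

end Pool.Agent.Results.MP_b15c9e_ag.MapsNearTargets
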