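import Pool.Agent.X295.DynC

/-!
# MP_b15c9e_ag: Dynamical Mordell-Lang for families with several parameters whose members over one
divisor are preperiodic

**Families.** Let `F_{u,0}, …, F_{u,N}` be forms of degree `d` in `N + 1` variables whose
coefficients are complex polynomials in `q` parameters `u = (u_1, …, u_q)` (`member F u`), and let
`x_0, …, x_N` be complex polynomials in `u` (`start x u`). So `F_u` is a `q`-parameter family of
rational self-maps of `ℙ^N` (for example of endomorphisms) and `x_u` is a family of starting points.

**Theorem.** Let `D ⊂ 𝔸^q` be an irreducible hypersurface, defined by an irreducible polynomial `h`
whose coefficients are algebraic numbers. Suppose that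

* for all complex points `u` of `D` the orbit of `x_u` under `F_u` is finite (`FiniteOrbit`: two of
  the iterates, in the cone, are proportional; the numbers of these iterates may depend on `u`, and
  the orbit need not be defined for all `u`);
* one complex point `a` of `D` is such that `x_a` is étale preperiodic for `F_a`: no iterate of `x_a`
  in the cone is zero, and the determinant of the matrix of the partial derivatives of the
  `F_{a,i}` does not vanish at the iterates of `x_a` from some index on.

Then for all `ε > 0` all but `O(H^{q - 1 + ε})` of the more than `H^q` integral vectors `u` with
`|u_j| ≤ H` have the following property (`DMLAt`): the orbit of `x_u` under `F_u` is defined (no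
iterate is zero), and for every set `S` of polynomials in `N + 1` variables (for closed subsets of
`ℙ^N`: a set of forms) the set of the `n` such that all members of `S` vanish at the `n`-th iterate
is a finite union of arithmetic progressions.

So the Dynamical Mordell-Lang conjecture holds for almost all members of the family, with a power
saving. For example (`h = u_1`) let `P_u` be a family of fixed points (or of preperiodic points) of a
family of endomorphisms `F_u`, étale at the cycle for one `u` with `u_1 = 0`, and let
`x_u = P_u + u_1 y_u` with arbitrary polynomials `y_u`. The exponent `q - 1` is the best possible one
for this method, as `u_1 = 1` on a hyperplane.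

The results `OnePreperiodicMember` and `NumberFieldPoints` concern families with one parameter
(`q = 1`, `D` a point). On lines in `𝔸^q` they give exceptional sets which are small for each line but
not uniformly in the line, so no bound for the number of exceptions in a box, and nothing for the
lines which meet `D` only in points where the orbit is not étale.

The proof: (1) as `D` has points outside of countably many given proper closed subsets, two
iterates with given numbers `n₀`, `n₀ + m` are proportional at all points of `D`. (2) Let `p` be a
large prime divisor of the value at `u` of the norm of `h`, and not of the value of a polynomial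
`ρ ≠ 0` in all but one variable, which is given by elimination of that variable from `h` and the
product of the coordinates and the determinants of the first `n₀ + m` iterates which are different
from zero at `a`. Then there is an embedding of `ℂ` into the algebraic closure of `ℚ_p` for which all
data are integral, `h(u)` is not a unit and the value of the product at `u` is a unit: so the
reduction of the orbit of `x_u` is preperiodic and étale, and `p`-adic interpolation applies. (3) If
`u` is not near to `D` in this way then the norm of `h` at `u` is composed of primes from a
small set, and the number of these `u` is counted on lines.
-/

set_option autoImplicit false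

open MvPolynomial Pool.Agent.H936R2 Pool.Agent.Y199.DM Pool.Agent.X295.Dyn

namespace Pool.Agent.Results.MP_b15c9e_ag.PreperiodicDivisors

/-- **Dynamical Mordell-Lang for almost all integral parameters of a family with several parameters
which is preperiodic along one divisor.** -/
theorem result {q N d : ℕ}
    (F : Fin (N + 1) → MvPolynomial (Fin (N + 1)) (MvPolynomial (Fin q) ℂ))
    (hF : ∀ i, (F i).IsHomogeneous d) (x : Fin (N + 1) → MvPolynomial (Fin q) ℂ)
    (h : MvPolynomial (Fin q) ℂ) (hirr : Irreducible h) (halg : ∀ μ, IsAlgebraic ℚ (h.coeff μ))
    (hper : ∀ u : Fin q → ℂ, eval u h = 0 → FiniteOrbit (member F u) (start x u))
    (a : Fin q → ℂ) (ha : eval a h = 0) (het : EtalePreperiodic (member F a) (start x a))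
    {ε : ℝ} (hε : 0 < ε) :
    ∃ C : ℝ, ∀ H : ℕ, 1 ≤ H → (({u : Fin q → ℤ | (∀ j, |u j| ≤ H) ∧
      ¬ DMLAt (member F fun j => (u j : ℂ)) (start x fun j => (u j : ℂ))}).ncard : ℝ) ≤
      C * (H : ℝ) ^ ((q : ℝ) - 1 + ε) :=
  dml_family F hF x h hirr halg hper a ha het hε

end Pool.Agent.Results.MP_b15c9e_ag.PreperiodicDivisors
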