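import Pool.Agent.Results.MP_b15c9e_ag.SymmetricPowers
import Pool.Agent.X174.WinBox

/-!
# Dynamical Mordell-Lang for the symmetric powers of ALL quadratic rational functions with coefficients in cubes

There is `δ > 0` such that for every sequence `v ≥ 1` of exponent of convergence at most `τ` (for `v_i = (i + 1) ^ a` this is
`1 / a`, for `v_i = b ^ i` it is `0`) and every `ρ < 1`, outside a set of `x ∈ ℝ^6` of Hausdorff dimension at most
`(6 - δ + τ) / (1 - ρ)` the following holds for all but finitely many `i`: for ALL quadratic rational functions `f` with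
integral coefficients in the cube with centre `x v_i` and side `2 v_i ^ ρ`, all symmetric powers `Sym^N f : ℙ^N → ℙ^N`,
`N ≥ 1`, are endomorphisms with the full Dynamical Mordell-Lang property (all complex points, all closed subvarieties).

The proportion of exceptions is from the starting result `SymmetricPowers`.
-/

set_option autoImplicit false

namespace Pool.Agent.Results.MP_b15c9e_ag.SymmetricPowersInCubes

open SymmetricPowers (IsEndo IsSymPower DML)

/-- the exponent of convergence of the sequence `v` is at most `τ` -/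
def ExpLe (v : ℕ → ℝ) (τ : ℝ) : Prop := ∀ t : ℝ, τ < t → Summable (fun n : ℕ => (v n) ^ (-t))

/-- **Theorem.** There is `δ > 0` such that for every sequence `v ≥ 1` of exponent of convergence at most `τ ≥ 0` and every
`ρ < 1` there is a set `E ⊂ ℝ^6` of Hausdorff dimension at most `(6 - δ + τ) / (1 - ρ)` with: for each `x` outside `E`, for
all but finitely many `i`, for ALL integral vectors `w` which differ in each coordinate from `v_i x` by at most `v_i ^ ρ`,
all symmetric powers `ℙ^N → ℙ^N`, `N ≥ 1`, of the quadratic rational function with coefficients `w` are endomorphisms of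
`ℙ^N` with the full Dynamical Mordell-Lang property (all complex points, all closed subvarieties over `ℂ`). The sequences
`v_i = (i + 1) ^ a` and `v_i = b ^ i` have exponent of convergence at most `1 / a` and `0`. -/
theorem result :
    (∃ δ : ℝ, 0 < δ ∧
      ∀ (v : ℕ → ℝ) (τ ρ : ℝ), (∀ i, 1 ≤ v i) → 0 ≤ τ → ExpLe v τ → ρ < 1 →
      ∃ E : Set (Fin 2 × Fin 3 → ℝ),
        dimH E ≤ ENNReal.ofReal ((6 - δ + τ) / (1 - ρ)) ∧
        ∀ x : Fin 2 × Fin 3 → ℝ, x ∉ E → ∃ i₀ : ℕ, ∀ i : ℕ, i₀ ≤ i →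
          ∀ w : Fin 2 × Fin 3 → ℤ, (∀ q, |(w q : ℝ) - x q * v i| ≤ (v i) ^ ρ) →
            ∀ N : ℕ, 1 ≤ N → ∃ F : Fin (N + 1) → MvPolynomial (Fin (N + 1)) ℂ,
              IsEndo 2 F ∧ IsSymPower w F ∧ DML F) ∧
    (∀ a : ℝ, 0 < a → ExpLe (fun n : ℕ => ((n : ℝ) + 1) ^ a) (1 / a)) ∧
    (∀ b : ℝ, 1 < b → ExpLe (fun n : ℕ => b ^ n) 0) := by
  refine ⟨?_, fun κ hκ => Pool.Agent.Y854.GM.expLe_pow κ hκ, fun b hb => Pool.Agent.Y854.GM.expLe_geom b hb⟩
  obtain ⟨δ, hδ, H₀, hH⟩ := SymmetricPowers.result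
  have h2 : Fintype.card (Fin 2 × Fin 3) = 6 := by
    simp only [Fintype.card_prod, Fintype.card_fin]
  refine ⟨min δ (1 / 2), lt_min hδ (by norm_num), fun v τ ρ hv hτ hE hρ => ?_⟩
  obtain ⟨E, hE1, hE2⟩ := Pool.Agent.X174.winBox (κ := Fin 2 × Fin 3) (by rw [h2]; omega)
    (fun w => ∀ N : ℕ, 1 ≤ N → ∃ F : Fin (N + 1) → MvPolynomial (Fin (N + 1)) ℂ,
      IsEndo 2 F ∧ IsSymPower w F ∧ DML F) hδ H₀
    (fun H hH₀ => by
      have h3 := hH H hH₀ 0
      simp only [Pi.zero_apply, sub_zero] at h3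
      rw [h2]
      exact h3) hv hτ hE hρ
  refine ⟨E, ?_, hE2⟩
  rw [h2] at hE1
  simpa using hE1

end Pool.Agent.Results.MP_b15c9e_ag.SymmetricPowersInCubes
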